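import Pool.Agent.Work.MP_49847a_an.Main

/-!
# Hermitian sums of squares on the level sets `‖P‖ = 1` of finite polynomial maps

Let `P : ℂⁿ → ℂᵏ` be a finite polynomial map and `X = {z : ‖P(z)‖² = 1}`. Then every real
polynomial which is positive on `X` is a sum of squared moduli of holomorphic polynomials modulo
`‖P‖² - 1` if and only if `X` is strongly pseudoconvex and `P` is injective on `X`. If moreover
`‖P‖² - 1` divides every real polynomial vanishing on `X`, then the same condition is equivalent to
the property that every real polynomial which is positive on `X` agrees on `X` with a sum of squared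
moduli of holomorphic polynomials.

The definitions are in `Pool.Agent.Work.MP_49847a_an.Defs`:

* a real polynomial is an `R : MvPolynomial (Fin n ⊕ Fin n) ℝ`, with value `ev R z` at `z ∈ ℂⁿ`
  obtained by inserting `Re z_i` for the variable `inl i` and `Im z_i` for the variable `inr i`;
* `nrm p z = ∑_j |p_j(z)|²`; `XX P = {z : nrm P z = 1}`;
* `FiniteMap P`: the coordinates are integral over `ℂ[P_1, …, P_k]`;
* `StrPsc P`: the Levi form of `‖P‖² - 1` is positive definite on the complex tangent vectors
  at the points of `XX P`; `InjX P`: `P` is injective on `XX P`;
* `Quillen P`, `SumsOnX P`, `Generates P`: the three properties in the statement above.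
-/

open Pool.Agent.Work.MP_49847a_an

namespace Pool.Agent.Results.MP_49847a_an.FiniteMapCriterion

/-- **Hermitian sums of squares on `‖P‖ = 1`: a criterion for finite polynomial maps.** -/
theorem result {n k : ℕ} {P : Fin k → MvPolynomial (Fin n) ℂ} (hP : FiniteMap P) :
    (Quillen P ↔ StrPsc P ∧ InjX P) ∧ (Generates P → (SumsOnX P ↔ StrPsc P ∧ InjX P)) :=
  main hP

end Pool.Agent.Results.MP_49847a_an.FiniteMapCriterion
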