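import Pool.Agent.Work.MP_49847a_an.Rat.RMain

/-!
# Hermitian sums of squares on the hypersurfaces `‖P‖ = |q|`

Let `P = (P_1, …, P_k)` and `q` be holomorphic polynomials of degree at most `d` on `ℂⁿ` with
`‖P(z)‖² - |q(z)|² ≥ δ ‖z‖^{2d}` near infinity for some `δ > 0` (the leading part of bidegree
`(d,d)` is positive), and `‖P(z)‖ < |q(z)|` for some `z`; let `X = {z : ‖P(z)‖ = |q(z)|}`.
Then every real polynomial which is positive on `X` is a sum of squared moduli of holomorphic
polynomials modulo `‖P‖² - |q|²` if and only if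

* `q` has no zero on the polynomial hull of `X`,
* `P/q` is injective on `X`, and
* the Levi form of `‖P‖² - |q|²` is positive on the complex tangent vectors at the points of `X`.

If moreover `‖P‖² - |q|²` divides every real polynomial vanishing on `X`, then the same three
conditions are equivalent to the property that every real polynomial which is positive on `X` agrees
on `X` with a sum of squared moduli of holomorphic polynomials.

The definitions are in `Pool.Agent.Work.MP_49847a_an.Defs` and
`Pool.Agent.Work.MP_49847a_an.Rat.RDefs`: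

* a real polynomial is an `R : MvPolynomial (Fin n ⊕ Fin n) ℝ`, with value `ev R z` at `z ∈ ℂⁿ`
  obtained by inserting `Re z_i` for the variable `inl i` and `Im z_i` for the variable `inr i`;
* `nrm p z = ∑_j |p_j(z)|²`, `nn z = ∑_i |z_i|²`, `rr P q z = ‖P(z)‖² - |q(z)|²`,
  `XQ P q = {rr P q = 0}`;
* `Lead d P q`: degrees at most `d` and `rr P q z ≥ δ (nn z)^d` near infinity for some `δ > 0`;
* `hull X`: the points `a` with `|p(a)| ≤ sup_X |p|` for all holomorphic polynomials `p`;
* `InjQ P q`: `P(a) q(b) = P(b) q(a)` with `a, b ∈ XQ P q` only for `a = b`;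
* `LeviQ P q`: positivity of the Levi form; `QuillenQ P q`, `SumsOn X`, `GeneratesQ P q`: the three
  properties in the statement above.
-/

open Pool.Agent.Work.MP_49847a_an

namespace Pool.Agent.Work.MP_49847a_an.Old.OneNegativeSquare

/-- **Hermitian sums of squares on `‖P‖ = |q|`: a criterion.** -/
theorem result {n k d : ℕ} {P : Fin k → MvPolynomial (Fin n) ℂ} {q : MvPolynomial (Fin n) ℂ}
    (hL : Lead d P q) (h0 : ∃ z, rr P q z < 0) :
    (QuillenQ P q ↔ (∀ a ∈ hull (XQ P q), MvPolynomial.eval a q ≠ 0) ∧ InjQ P q ∧ LeviQ P q) ∧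
    (GeneratesQ P q → (SumsOn (XQ P q) ↔
      (∀ a ∈ hull (XQ P q), MvPolynomial.eval a q ≠ 0) ∧ InjQ P q ∧ LeviQ P q)) :=
  mainQ hL h0

end Pool.Agent.Work.MP_49847a_an.Old.OneNegativeSquare
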