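import Pool.Agent.Work.MP_49847a_an.Sg.SMain

/-!
# Hermitian sums of squares on the hypersurfaces `‖P‖ = ‖Q‖`, every signature

Let `P = (P_1, …, P_k)` and `Q = (Q_1, …, Q_l)` be holomorphic polynomials of degree at most `d` on
`ℂⁿ`, `r = ‖P‖² - ‖Q‖²` with polarisation `r(z, w)`, and `r ≥ δ ‖z‖^{2d}` near infinity for some
`δ > 0` (every real polynomial of bidegree `(d,d)` with positive leading part has this form); let
`X = {r = 0}`.  Then every real polynomial which is positive on `X` is a sum of squared moduli of
holomorphic polynomials modulo `r` if and only if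

* (separation) `r(a, b) ≠ 0` for all points `a ≠ b` of the polynomial hull of `X`,
* (Levi) the Levi form of `r` is positive on the complex tangent vectors at the points of `X`, and
* (inner) near each point of `X` one has `r ≤ 0` on the hull.

If the differential of `r` does not vanish on `X`, then the first two conditions suffice.  If `r`
divides every real polynomial vanishing on `X`, the property is equivalent to the property that every
real polynomial positive on `X` agrees on `X` with a sum of squared moduli of holomorphic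
polynomials.

The definitions are in `Pool.Agent.Work.MP_49847a_an.Defs`, `….Rat.RDefs` and `….Sg.SDefs`:

* a real polynomial is an `R : MvPolynomial (Fin n ⊕ Fin n) ℝ`, with value `ev R z` at `z ∈ ℂⁿ`
  obtained by inserting `Re z_i` for the variable `inl i` and `Im z_i` for the variable `inr i`;
* `nrm p z = ∑_j |p_j(z)|²`, `nn z = ∑_i |z_i|²`, `r2 P Q z = ‖P(z)‖² - ‖Q(z)‖²`,
  `R2 P Q z w = ∑ P_j(z) conj(P_j(w)) - ∑ Q_j(z) conj(Q_j(w))`, `X2 P Q = {r2 P Q z = 0}`;
* `Lead2 d P Q`: degrees at most `d` and `r2 P Q z ≥ δ (nn z)^d` near infinity for some `δ > 0`;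
* `hull X`: the points `a` with `|p(a)| ≤ sup_X |p|` for all holomorphic polynomials `p`;
* `Sep2`, `Levi2`, `Inn2`: the three conditions; `Smooth2`: the differential does not vanish on `X`;
* `Quillen2`, `SumsOn`, `Generates2`: the three properties in the statement above.
-/

open Pool.Agent.Work.MP_49847a_an

namespace Pool.Agent.Results.MP_49847a_an.SegreCriterion

/-- **Hermitian sums of squares on `‖P‖ = ‖Q‖`: a criterion.** -/
theorem result {n k l d : ℕ} {P : Fin k → MvPolynomial (Fin n) ℂ}
    {Q : Fin l → MvPolynomial (Fin n) ℂ} (hL : Lead2 d P Q) :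
    (Quillen2 P Q ↔ Sep2 P Q ∧ Levi2 P Q ∧ Inn2 P Q) ∧
    (Smooth2 P Q → (Quillen2 P Q ↔ Sep2 P Q ∧ Levi2 P Q)) ∧
    (Generates2 P Q → (SumsOn (X2 P Q) ↔ Quillen2 P Q)) :=
  main2 hL

end Pool.Agent.Results.MP_49847a_an.SegreCriterion
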